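import Pool.Agent.Helper12.ST.KF

set_option autoImplicit false

/-!
# Piece SYL2 of the proof of S09391 (MP_6ecf75_co)
-/

namespace Pool.Agent.Helper90.ST

variable {G ι : Type} [Group G] {A : ι → Subgroup G} {S : Subgroup G} {s t : ℕ}

/-- the order of `A i S` -/
theorem IsKF.syl2_card_sup (h : IsKF A S s t) (ht : 0 < t) (i : ι) :
    Nat.card (A i ⊔ S : Subgroup G) = s * t := by
  haveI := h.normS
  have h1 : S.relIndex (A i ⊔ S) = S.relIndex (A i) := Subgroup.relIndex_sup_right _ _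
  have h2 : S ⊓ A i = ⊥ := by
    rw [eq_bot_iff]
    rintro x ⟨hx1, hx2⟩
    exact Subgroup.mem_bot.2 (h.inter_S ht i x hx2 hx1)
  have h3 : S.relIndex (A i) = s := by
    rw [← Subgroup.inf_relIndex_right, h2, Subgroup.relIndex_bot_left, h.cardA]
  have h4 := Subgroup.relIndex_mul_relIndex (⊥ : Subgroup G) S (A i ⊔ S) bot_le le_sup_right
  rw [Subgroup.relIndex_bot_left, Subgroup.relIndex_bot_left, h1, h3, h.cardS] at h4
  rw [← h4, mul_comm]

theorem IsKF.syl2_mem_sup (h : IsKF A S s t) {i : ι} {g : G} :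
    g ∈ A i ⊔ S ↔ ∃ a ∈ A i, ∃ σ ∈ S, g = a * σ := by
  haveI := h.normS
  rw [Subgroup.mem_sup_of_normal_right]
  constructor
  · rintro ⟨y, hy, z, hz, rfl⟩
    exact ⟨y, hy, z, hz, rfl⟩
  · rintro ⟨y, hy, z, hz, rfl⟩
    exact ⟨y, hy, z, hz, rfl⟩

/-- first counting: for a subgroup `P` containing `A i`. -/
theorem IsKF.syl2_count1 (h : IsKF A S s t) (ht : 0 < t) [Fintype G] (P : Subgroup G)
    (i : ι) (hi : A i ≤ P) (W : Finset G)
    (hW : ∀ a ∈ W, a ≠ 1 ∧ a ∈ P ∧ ∃ j, j ≠ i ∧ a ∈ A j) :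
    W.card * s + Nat.card (P ⊓ (A i ⊔ S) : Subgroup G) ≤ Nat.card P := by
  classical
  have key : ((W ×ˢ SF (A i)).image (fun x => x.1 * x.2)).card = W.card * s := by
    rw [Finset.card_image_of_injOn, Finset.card_product, card_SF, h.cardA]
    rintro ⟨a, b⟩ hab ⟨a', b'⟩ hab' heq
    simp only [Finset.coe_product, Set.mem_prod, Finset.mem_coe, mem_SF] at hab hab' heq
    obtain ⟨h1, _, j, hj, haj⟩ := hW a hab.1
    obtain ⟨h1', _, j', hj', haj'⟩ := hW a' hab'.1
    have e : a'⁻¹ * a = b' * b⁻¹ := by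
      rw [inv_mul_eq_iff_eq_mul, ← mul_assoc, ← heq, mul_assoc, mul_inv_cancel, mul_one]
    have hm : a'⁻¹ * a ∈ A i := by
      rw [e]; exact (A i).mul_mem hab'.2 ((A i).inv_mem hab.2)
    by_cases hjj : j = j'
    · subst hjj
      have : a'⁻¹ * a = 1 :=
        h.disj hj.symm _ hm ((A j).mul_mem ((A j).inv_mem haj') haj)
      have haa : a' = a := by
        rw [inv_mul_eq_one] at this; exact this
      subst haa
      simpa using heq
    · exfalso
      have := h.K1 j' j i (Ne.symm hjj) hj hj' a'⁻¹ ((A j').inv_mem haj') a haj hm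
      exact h1' (inv_eq_one.1 this)
  have hdisj : Disjoint ((W ×ˢ SF (A i)).image (fun x => x.1 * x.2)) (SF (P ⊓ (A i ⊔ S))) := by
    rw [Finset.disjoint_left]
    intro x hx hx'
    obtain ⟨⟨a, b⟩, hab, rfl⟩ := Finset.mem_image.1 hx
    rw [Finset.mem_product, mem_SF] at hab
    obtain ⟨h1, _, j, hj, haj⟩ := hW a hab.1
    rw [mem_SF] at hx'
    have h2 : a ∈ A i ⊔ S := by
      have := (A i ⊔ S).mul_mem hx'.2 ((A i ⊔ S).inv_mem ((le_sup_left : A i ≤ A i ⊔ S) hab.2))
      simpa using this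
    obtain ⟨y, hy, σ, hσ, e⟩ := h.syl2_mem_sup.1 h2
    have h3 := h.K2 i j hj.symm y⁻¹ ((A i).inv_mem hy) a haj (by rw [e]; simpa using hσ)
    have h4 : y = 1 := inv_eq_one.1 h3
    rw [h4, one_mul] at e
    exact h1 (h.inter_S ht j a haj (e ▸ hσ))
  have hsub : ((W ×ˢ SF (A i)).image (fun x => x.1 * x.2)) ∪ (SF (P ⊓ (A i ⊔ S))) ⊆ SF P := by
    intro x hx
    rcases Finset.mem_union.1 hx with hx | hx
    · obtain ⟨⟨a, b⟩, hab, rfl⟩ := Finset.mem_image.1 hx
      rw [Finset.mem_product, mem_SF] at hab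
      rw [mem_SF]
      exact P.mul_mem (hW a hab.1).2.1 (hi hab.2)
    · rw [mem_SF] at hx ⊢
      exact hx.1
  have := Finset.card_le_card hsub
  rw [Finset.card_union_of_disjoint hdisj, key, card_SF, card_SF] at this
  exact this

/-- second counting. -/
theorem IsKF.syl2_count2 (h : IsKF A S s t) (hs : 0 < s) (ht : 0 < t) [Fintype G] (P : Subgroup G)
    (i : ι) (hi : A i ≤ P) (b : G) (X : Finset G)
    (hX : ∀ g ∈ P, ∀ l, l ≠ i → g * b⁻¹ ∈ A l → g ∈ X) :
    Nat.card P ≤ s * X.card + Nat.card (P ⊓ (A i ⊔ S) : Subgroup G) := by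
  classical
  set Y : Finset G := (SF P).filter (fun g => g * b⁻¹ ∈ A i ⊔ S) with hY
  have hYcard : Y.card ≤ Nat.card (P ⊓ (A i ⊔ S) : Subgroup G) := by
    rcases Y.eq_empty_or_nonempty with he | ⟨g0, hg0⟩
    · rw [he]; simp
    · rw [← card_SF]
      apply Finset.card_le_card_of_injOn (fun g => g * g0⁻¹)
      · intro g hg
        have hg1 := (Finset.mem_filter.1 (Finset.mem_coe.1 hg))
        have hg2 := (Finset.mem_filter.1 hg0)
        rw [mem_SF] at hg1 hg2
        rw [Finset.mem_coe, mem_SF]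
        refine ⟨P.mul_mem hg1.1 (P.inv_mem hg2.1), ?_⟩
        have := (A i ⊔ S).mul_mem hg1.2 ((A i ⊔ S).inv_mem hg2.2)
        simpa [mul_assoc] using this
      · intro g _ g' _ e
        simpa using e
  have hsub : SF P ⊆ ((SF (A i) ×ˢ X).image (fun x => x.1 * x.2)) ∪ Y := by
    intro g hg
    rw [mem_SF] at hg
    rw [Finset.mem_union]
    rcases h.decomp hs ht i (g * b⁻¹)⁻¹ with ⟨a, ha, σ, hσ, e⟩ | ⟨l, hl, a, ha, c, hc, e⟩
    · right
      rw [hY, Finset.mem_filter, mem_SF]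
      refine ⟨hg, ?_⟩
      have : (g * b⁻¹)⁻¹ ∈ A i ⊔ S := h.syl2_mem_sup.2 ⟨a, ha, σ, hσ, e⟩
      exact (Subgroup.inv_mem_iff _).1 this
    · left
      have e' : g * b⁻¹ = c⁻¹ * a⁻¹ := by
        rw [← mul_inv_rev, ← e, inv_inv]
      have hX' : c * g ∈ X := by
        apply hX (c * g) (P.mul_mem (hi hc) hg) l hl
        have : c * g * b⁻¹ = a⁻¹ := by
          rw [mul_assoc, e']; simp
        rw [this]
        exact (A l).inv_mem ha
      rw [Finset.mem_image]
      exact ⟨(c⁻¹, c * g), by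
        rw [Finset.mem_product, mem_SF]; exact ⟨(A i).inv_mem hc, hX'⟩, by simp⟩
  have h1 := Finset.card_le_card hsub
  have h2 := Finset.card_union_le ((SF (A i) ×ˢ X).image (fun x => x.1 * x.2)) Y
  have h3 : ((SF (A i) ×ˢ X).image (fun x => x.1 * x.2)).card ≤ s * X.card := by
    refine Finset.card_image_le.trans ?_
    rw [Finset.card_product, card_SF, h.cardA]
  rw [card_SF] at h1
  omega

theorem kf_t_pow (h : IsKF A S s t) {p n : ℕ} (hp : p.Prime) (hn : 1 ≤ n) (hs : s = p ^ n)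
    (ht : 1 < t) (hts : t ≤ s) : ∃ m : ℕ, t = p ^ m := by
  classical
  haveI : Fact p.Prime := ⟨hp⟩
  have hs1 : 1 < s := lt_of_lt_of_le ht hts
  have hs0 : 0 < s := by omega
  have ht0 : 0 < t := by omega
  haveI := h.finite_G hs0 ht0
  haveI := h.finite_ι
  haveI := h.normS
  letI : Fintype G := Fintype.ofFinite G
  letI : Fintype ι := Fintype.ofFinite ι
  -- t = p^c t'
  obtain ⟨c, t', ht', htt⟩ := Nat.exists_eq_pow_mul_and_not_dvd (n := t) (by omega) p hp.ne_one
  by_cases h1 : t' = 1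
  · exact ⟨c, by rw [htt, h1, mul_one]⟩
  exfalso
  have ht'0 : 0 < t' := by
    rcases Nat.eq_zero_or_pos t' with h0 | h0
    · rw [h0, mul_zero] at htt; omega
    · exact h0
  have ht'2 : 2 ≤ t' := by omega
  set τ := p ^ c with hτ
  have hτ0 : 0 < τ := pow_pos hp.pos c
  have hcop : ∀ m : ℕ, Nat.Coprime (p ^ m) t' := fun m =>
    Nat.Coprime.pow_left m ((Nat.Prime.coprime_iff_not_dvd hp).2 ht')
  -- order of Sylow subgroups
  have hcardG : Nat.card G = s ^ 2 * τ * t' := by rw [h.cardG, htt]; ring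
  have hsτ : s ^ 2 * τ = p ^ (2 * n + c) := by
    rw [hs, hτ, pow_add, pow_mul, ← pow_mul, mul_comm n 2, pow_mul]
  have hSyl : ∀ P : Sylow p G, Nat.card P = s ^ 2 * τ := by
    intro P
    have hPG := P.isPGroup'
    obtain ⟨k, hk⟩ := IsPGroup.iff_card.mp P.isPGroup'
    have hd : p ^ (2 * n + c) ∣ Nat.card P :=
      P.pow_dvd_card_of_pow_dvd_card (by rw [hcardG, hsτ]; exact Dvd.intro _ rfl)
    have hd2 : Nat.card P ∣ p ^ (2 * n + c) := by
      have h2 : Nat.card P ∣ p ^ (2 * n + c) * t' := by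
        rw [← hsτ, ← hcardG]; exact Subgroup.card_subgroup_dvd_card P.1
      rw [hk] at h2 ⊢
      exact (hcop k).dvd_of_dvd_mul_right h2
    rw [hsτ]; exact Nat.dvd_antisymm hd2 hd
  have hnSyl : ∀ P : Sylow p G, Nat.card (Sylow p G) ≤ t' := by
    intro P
    have h2 : Nat.card (Sylow p G) ∣ P.1.index := P.card_dvd_index
    have h3 : P.1.index = t' := by
      have h4 := P.1.card_mul_index
      have h5 : Nat.card P.1 = s ^ 2 * τ := hSyl P
      rw [h5, hcardG] at h4
      exact Nat.eq_of_mul_eq_mul_left (by positivity) h4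
    rw [h3] at h2
    exact Nat.le_of_dvd ht'0 h2
  -- pigeonhole
  have hAp : ∀ i, ∃ P : Sylow p G, A i ≤ P := fun i =>
    (IsPGroup.of_card (by rw [h.cardA, hs])).exists_le_sylow
  choose f hf using hAp
  obtain ⟨P, hP⟩ : ∃ P : Sylow p G, τ < (Finset.univ.filter (fun i => f i = P)).card := by
    letI : Fintype (Sylow p G) := Fintype.ofFinite _
    obtain ⟨P0⟩ : Nonempty (Sylow p G) := Sylow.nonempty
    have hlt : Fintype.card (Sylow p G) * τ < Fintype.card ι := by
      rw [← Nat.card_eq_fintype_card, ← Nat.card_eq_fintype_card, h.cardI]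
      calc Nat.card (Sylow p G) * τ ≤ t' * τ := Nat.mul_le_mul_right _ (hnSyl P0)
        _ = t := by rw [htt, mul_comm]
        _ < t + 1 := Nat.lt_succ_self t
    exact Fintype.exists_lt_card_fiber_of_mul_lt_card f hlt
  set I0 : Finset ι := Finset.univ.filter (fun i => A i ≤ P.1) with hI0
  have hI0card : τ + 1 ≤ I0.card := by
    refine le_trans hP (Finset.card_le_card ?_)
    intro i hi
    rw [Finset.mem_filter] at hi
    rw [hI0, Finset.mem_filter]
    refine ⟨Finset.mem_univ _, ?_⟩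
    have := hf i
    rw [hi.2] at this
    exact this
  obtain ⟨i, hi⟩ : I0.Nonempty := Finset.card_pos.1 (by omega)
  have hiP : A i ≤ P.1 := (Finset.mem_filter.1 hi).2
  -- the order of P ⊓ A i S
  have hPP : Nat.card P.1 = s ^ 2 * τ := hSyl P
  have hQ : Nat.card (P.1 ⊓ (A i ⊔ S) : Subgroup G) = s * τ := by
    have hle : Nat.card (P.1 ⊓ (A i ⊔ S) : Subgroup G) ∣ s * τ := by
      obtain ⟨k, hk⟩ := IsPGroup.iff_card.mp ((P.isPGroup').to_inf_left (K := A i ⊔ S))
      have h2 : Nat.card (P.1 ⊓ (A i ⊔ S) : Subgroup G) ∣ (s * τ) * t' := by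
        have h3 : Nat.card (P.1 ⊓ (A i ⊔ S) : Subgroup G) ∣ Nat.card (A i ⊔ S : Subgroup G) :=
          Subgroup.card_dvd_of_le inf_le_right
        rw [h.syl2_card_sup ht0 i, htt, ← mul_assoc] at h3
        exact h3
      rw [hk] at h2 ⊢
      exact (hcop k).dvd_of_dvd_mul_right h2
    refine le_antisymm (Nat.le_of_dvd (by positivity) hle) ?_
    have h4 : (A i ⊔ S).relIndex P.1 ≤ (A i ⊔ S).index := by
      have := Subgroup.relIndex_le_of_le_right (H := A i ⊔ S) (K := P.1) (L := ⊤) le_top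
        (by rw [Subgroup.relIndex_top_right]; exact Subgroup.index_ne_zero_of_finite)
      rwa [Subgroup.relIndex_top_right] at this
    have h5 : (A i ⊔ S).index = s := by
      have := (A i ⊔ S).card_mul_index
      rw [h.syl2_card_sup ht0 i, h.cardG] at this
      have h6 : (s * t) * (A i ⊔ S).index = (s * t) * s := by rw [this]; ring
      exact Nat.eq_of_mul_eq_mul_left (by positivity) h6
    have h6 : Nat.card (P.1 ⊓ (A i ⊔ S) : Subgroup G) * (A i ⊔ S).relIndex P.1 = s ^ 2 * τ := by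
      have := Subgroup.relIndex_mul_relIndex (⊥ : Subgroup G) (P.1 ⊓ (A i ⊔ S)) P.1 bot_le
        inf_le_left
      rw [Subgroup.relIndex_bot_left, Subgroup.relIndex_bot_left, inf_comm,
        Subgroup.inf_relIndex_right, hPP] at this
      rw [inf_comm]; exact this
    rw [h5] at h4
    by_contra hlt
    push_neg at hlt
    have : Nat.card (P.1 ⊓ (A i ⊔ S) : Subgroup G) * (A i ⊔ S).relIndex P.1 < (s * τ) * s :=
      Nat.mul_lt_mul_of_lt_of_le hlt h4 hs0
    rw [h6] at this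
    have h7 : (s * τ) * s = s ^ 2 * τ := by ring
    omega
  -- W
  set W' : Finset G := (I0.erase i).biUnion (fun j => (SF (A j)).erase 1) with hW'
  have hW'card : W'.card = (I0.card - 1) * (s - 1) := by
    rw [hW', Finset.card_biUnion]
    · rw [Finset.sum_congr rfl (fun j _ => ?_), Finset.sum_const, Finset.card_erase_of_mem hi,
        smul_eq_mul]
      rw [Finset.card_erase_of_mem (mem_SF.2 (A j).one_mem), card_SF, h.cardA]
    · intro j _ j' _ hjj
      rw [Function.onFun, Finset.disjoint_left]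
      intro x hx hx'
      rw [Finset.mem_erase, mem_SF] at hx hx'
      exact hx.1 (h.disj hjj x hx.2 hx'.2)
  have hW'P : ∀ a ∈ W', a ≠ 1 ∧ a ∈ P.1 ∧ ∃ j, j ≠ i ∧ a ∈ A j := by
    intro a ha
    rw [hW', Finset.mem_biUnion] at ha
    obtain ⟨j, hj, ha⟩ := ha
    rw [Finset.mem_erase] at hj
    rw [Finset.mem_erase, mem_SF] at ha
    exact ⟨ha.1, (Finset.mem_filter.1 hj.2).2 ha.2, j, hj.1, ha.2⟩
  have hs2 : s ^ 2 = s * (s - 1) + s := by
    obtain ⟨r, rfl⟩ : ∃ r, s = r + 1 := ⟨s - 1, by omega⟩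
    simp only [Nat.add_sub_cancel]; ring
  have hc1 := h.syl2_count1 ht0 P.1 i hiP W' hW'P
  rw [hW'card, hQ, hPP] at hc1
  have hI0eq : I0.card = τ + 1 := by
    refine le_antisymm ?_ hI0card
    by_contra hlt
    push_neg at hlt
    have h5 : (τ + 1) * (s - 1) * s ≤ (I0.card - 1) * (s - 1) * s :=
      Nat.mul_le_mul_right _ (Nat.mul_le_mul_right _ (by omega))
    have h6 : (τ + 1) * (s - 1) * s = τ * (s * (s - 1)) + (s - 1) * s := by ring
    have h7 : s ^ 2 * τ = τ * (s * (s - 1)) + s * τ := by rw [hs2]; ring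
    have h8 : 0 < (s - 1) * s := by
      apply Nat.mul_pos <;> omega
    omega
  -- claim 1
  have hclaim : ∀ k, k ∉ I0 → ∀ x ∈ A k, x ∈ P.1 → x = 1 := by
    intro k hk x hx hxP
    by_contra hx1
    have hxW : x ∉ W' := by
      intro hxW
      rw [hW', Finset.mem_biUnion] at hxW
      obtain ⟨j, hj, ha⟩ := hxW
      rw [Finset.mem_erase, mem_SF] at ha
      have hjk : j ≠ k := by
        rintro rfl
        exact hk (Finset.mem_erase.1 hj).2
      exact hx1 (h.disj hjk x ha.2 hx)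
    have hki : k ≠ i := by
      rintro rfl
      exact hk hi
    have hc := h.syl2_count1 ht0 P.1 i hiP (insert x W') (by
      intro a ha
      rw [Finset.mem_insert] at ha
      rcases ha with rfl | ha
      · exact ⟨hx1, hxP, k, hki, hx⟩
      · exact hW'P a ha)
    rw [Finset.card_insert_of_notMem hxW, hW'card, hQ, hPP, hI0eq, Nat.add_sub_cancel] at hc
    have h6 : (τ * (s - 1) + 1) * s = τ * (s * (s - 1)) + s := by ring
    have h7 : s ^ 2 * τ = τ * (s * (s - 1)) + s * τ := by rw [hs2]; ring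
    omega
  -- an index outside I0
  have hlt : τ < t := by
    rw [htt]
    calc τ = τ * 1 := (mul_one _).symm
      _ < τ * t' := Nat.mul_lt_mul_of_pos_left (by omega) hτ0
  obtain ⟨k, hk⟩ : ∃ k, k ∉ I0 := by
    by_contra hall
    push_neg at hall
    have : I0 = Finset.univ := Finset.eq_univ_iff_forall.2 hall
    have h2 : I0.card = t + 1 := by
      rw [this, Finset.card_univ, ← Nat.card_eq_fintype_card, h.cardI]
    omega
  obtain ⟨b, hb, hb1⟩ : ∃ b ∈ A k, b ≠ 1 := by
    by_contra hall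
    push_neg at hall
    have : A k = ⊥ := by
      rw [eq_bot_iff]
      intro x hx
      exact Subgroup.mem_bot.2 (hall x hx)
    have h2 := h.cardA k
    rw [this, Subgroup.card_bot] at h2
    omega
  have hbP : b ∉ P.1 := fun hbP => hb1 (hclaim k hk b hb hbP)
  -- X
  set X : Finset G := (SF P.1).filter (fun g => ∃ l, l ≠ i ∧ g * b⁻¹ ∈ A l) with hX
  have hXl : ∀ g ∈ X, ∃ l, l ∉ I0 ∧ g * b⁻¹ ∈ A l := by
    intro g hg
    rw [hX, Finset.mem_filter, mem_SF] at hg
    obtain ⟨hgP, l, hl, hgl⟩ := hg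
    refine ⟨l, fun hlI => hbP ?_, hgl⟩
    have h2 : g * b⁻¹ ∈ P.1 := (Finset.mem_filter.1 hlI).2 hgl
    have h3 := P.1.mul_mem (P.1.inv_mem h2) hgP
    simpa using h3
  have hXcard : X.card ≤ t - τ := by
    have h2 : X.card ≤ (Finset.univ \ I0).card := by
      haveI : Nonempty ι := ⟨i⟩
      choose! φ hφ1 hφ2 using hXl
      apply Finset.card_le_card_of_injOn φ
      · intro g hg
        rw [Finset.mem_coe, Finset.mem_sdiff]
        exact ⟨Finset.mem_univ _, hφ1 g hg⟩
      · intro g hg g' hg' e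
        have h3 := (A (φ g)).mul_mem (hφ2 g hg) ((A (φ g)).inv_mem (e ▸ hφ2 g' hg'))
        have h4 : g * b⁻¹ * (g' * b⁻¹)⁻¹ = g * g'⁻¹ := by group
        rw [h4] at h3
        have hgP : g ∈ P.1 := mem_SF.1 (Finset.mem_filter.1 hg).1
        have hgP' : g' ∈ P.1 := mem_SF.1 (Finset.mem_filter.1 hg').1
        have h5 := hclaim _ (hφ1 g hg) _ h3 (P.1.mul_mem hgP (P.1.inv_mem hgP'))
        exact mul_inv_eq_one.1 h5
    rw [Finset.card_sdiff_of_subset (Finset.subset_univ _), Finset.card_univ,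
      ← Nat.card_eq_fintype_card, h.cardI, hI0eq] at h2
    omega
  have hc2 := h.syl2_count2 hs0 ht0 P.1 i hiP b X (by
    intro g hg l hl hgl
    rw [hX, Finset.mem_filter, mem_SF]
    exact ⟨hg, l, hl, hgl⟩)
  rw [hPP, hQ] at hc2
  have hfin : s * τ ≤ t := by
    have h2 : s * X.card ≤ s * (t - τ) := Nat.mul_le_mul_left _ hXcard
    have h3 : s * (t - τ) + s * τ = s * t := by
      rw [← Nat.mul_add, Nat.sub_add_cancel hlt.le]
    have h4 : s * (s * τ) ≤ s * t := by
      calc s * (s * τ) = s ^ 2 * τ := by ring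
        _ ≤ _ := by omega
    exact Nat.le_of_mul_le_mul_left h4 hs0
  have hτ1 : τ = 1 := by
    by_contra hne
    have h2 : 2 ≤ τ := by omega
    have h3 : s * 2 ≤ s * τ := Nat.mul_le_mul_left _ h2
    omega
  have hst : s = t := by
    rw [hτ1, mul_one] at hfin
    omega
  have hpt : p ∣ t' := by
    have h2 : t' = t := by rw [htt, hτ1, one_mul]
    rw [h2, ← hst, hs]
    exact dvd_pow_self p (by omega)
  exact ht' hpt

end Pool.Agent.Helper90.ST
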